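import Pool.Agent.H754.Special.Std2
import Pool.Agent.H762.TG.Main

/-!
Graphs with even lattices of flows.
-/

set_option autoImplicit false
set_option linter.unusedSectionVars false

namespace Pool.Agent.H754.Special

open Finset Matrix
open Pool.Agent.H762.TG Pool.Agent.H762.TG.Multigraph

section

variable {V E : Type} [Fintype V] [Fintype E] [DecidableEq V] [DecidableEq E]

/-- flows of bipartite graphs have even norm -/
theorem even_norm (G : Multigraph V E) {c : V → Bool} (hc : ∀ e, c (G.src e) ≠ c (G.tgt e))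
    {x : E → ℤ} (hx : G.IsFlow x) : Even (x ⬝ᵥ x) := by
  let y : V → ℤ := fun v => if c v = true then 1 else 0
  have h1 := G.cuts_dot_flows (G.mem_cuts.2 ⟨y, rfl⟩) hx
  have h2 : x ⬝ᵥ x = ∑ e, (x e * x e - G.cut y e * x e) := by
    rw [sum_sub_distrib]
    change _ = x ⬝ᵥ x - G.cut y ⬝ᵥ x
    rw [h1, sub_zero]
  rw [h2]
  apply Finset.even_sum
  intro e _
  have h3 : G.cut y e = 1 ∨ G.cut y e = -1 := by
    have h4 := hc e
    change y (G.tgt e) - y (G.src e) = 1 ∨ y (G.tgt e) - y (G.src e) = -1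
    simp only [y]
    cases h5 : c (G.src e) <;> cases h6 : c (G.tgt e) <;> rw [h5, h6] at h4 <;> simp at h4 ⊢
  rcases h3 with h3 | h3
  · rw [h3]
    have : x e * x e - 1 * x e = (x e - 1) * (x e - 1 + 1) := by ring
    rw [this]
    exact Int.even_mul_succ_self _
  · rw [h3]
    have : x e * x e - -1 * x e = x e * (x e + 1) := by ring
    rw [this]
    exact Int.even_mul_succ_self _

/-- An embedding of `G.cuts ⊕ L` in the standard lattice with `L` even of odd determinant and of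
the rank of `G.flows` yields an isometric embedding of `L` in `G.flows`. -/
theorem exists_isometry (G : Multigraph V E) {κ M' : Type} [Fintype κ] [DecidableEq κ]
    [AddCommGroup M'] [Module.Free ℤ M'] [Module.Finite ℤ M'] (hκ : Fintype.card κ = Fintype.card E)
    (f : (G.cuts × M') →ₗ[ℤ] (κ → ℤ)) (hf : Function.Injective f)
    (hr : Module.finrank ℤ G.cuts + Module.finrank ℤ M' = Fintype.card κ)
    (hg : ∀ a b : G.cuts, f (a, 0) ⬝ᵥ f (b, 0) = (a : E → ℤ) ⬝ᵥ (b : E → ℤ))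
    (ho : ∀ x y, f (x, 0) ⬝ᵥ f (0, y) = 0) (he : ∀ y, Even (f (0, y) ⬝ᵥ f (0, y)))
    (hd : ∀ y, (∀ y', Even (f (0, y) ⬝ᵥ f (0, y'))) → ∃ z, y = (2 : ℤ) • z) :
    ∃ ψ : M' →ₗ[ℤ] G.flows, ∀ a b, (ψ a : E → ℤ) ⬝ᵥ (ψ b : E → ℤ) = f (0, a) ⬝ᵥ f (0, b) := by
  have hu := used f hf hr ho he hd
  obtain ⟨τ, η, h⟩ := standard (f ∘ₗ LinearMap.inl ℤ _ _) (fun a b => hg a b) hu hκ
  let Θ : (κ → ℤ) →ₗ[ℤ] (E → ℤ) :=
    { toFun := fun u e => η e * u (τ e)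
      map_add' := fun u w => by funext e; simp only [Pi.add_apply]; ring
      map_smul' := fun c u => by
        funext e; simp only [Pi.smul_apply, smul_eq_mul, RingHom.id_apply]; ring }
  have hΘ : ∀ u w, Θ u ⬝ᵥ Θ w = u ⬝ᵥ w := by
    intro u w
    change ∑ e, (η e * u (τ e)) * (η e * w (τ e)) = ∑ i, u i * w i
    rw [← τ.sum_comp]
    apply sum_congr rfl
    intro e _
    calc (η e : ℤ) * u (τ e) * (η e * w (τ e)) = ((η e : ℤ) * η e) * (u (τ e) * w (τ e)) := by ring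
      _ = _ := by rw [unit_mul_self, one_mul]
  have hst : ∀ x : G.cuts, Θ (f (x, 0)) = (x : E → ℤ) := by
    intro x
    funext e
    change (η e : ℤ) * f (x, 0) (τ e) = (x : E → ℤ) e
    have h1 : f (x, 0) (τ e) = η e * (x : E → ℤ) e := h x e
    rw [h1, ← mul_assoc, unit_mul_self, one_mul]
  have hflow : ∀ a : M', (Θ ∘ₗ f ∘ₗ LinearMap.inr ℤ _ _) a ∈ G.flows := by
    intro a
    apply G.isFlow_of_dot
    intro x hx
    have h1 := hst ⟨x, hx⟩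
    have h2 : x = Θ (f (⟨x, hx⟩, 0)) := h1.symm
    change x ⬝ᵥ Θ (f (0, a)) = 0
    rw [h2, hΘ, ho]
  refine ⟨(Θ ∘ₗ f ∘ₗ LinearMap.inr ℤ _ _).codRestrict G.flows hflow, fun a b => ?_⟩
  change Θ (f (0, a)) ⬝ᵥ Θ (f (0, b)) = _
  rw [hΘ]

end

section

variable {V E V' E' : Type} [Fintype V] [Fintype E] [DecidableEq V] [DecidableEq E]
  [Fintype V'] [Fintype E'] [DecidableEq V'] [DecidableEq E']

/-- The hypotheses on a graph: no bridges, bipartite, the lattice of flows is nonsingular modulo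
two. -/
structure Sp (G : Multigraph V E) : Prop where
  br : ∀ e, ∃ x, G.IsFlow x ∧ x e ≠ 0
  bi : ∃ c : V → Bool, ∀ e, c (G.src e) ≠ c (G.tgt e)
  od : ∀ x, G.IsFlow x → (∀ y, G.IsFlow y → Even (x ⬝ᵥ y)) → ∃ z, G.IsFlow z ∧ x = (2 : ℤ) • z

theorem inj_of_isometry {A B κ : Type} [Fintype A] [Fintype B] [Fintype κ]
    {L : Submodule ℤ (A → ℤ)} {L' : Submodule ℤ (B → ℤ)} (f : (L × L') →ₗ[ℤ] (κ → ℤ))
    (hf : ∀ a b, f a ⬝ᵥ f b = (a.1 : A → ℤ) ⬝ᵥ (b.1 : A → ℤ) + (a.2 : B → ℤ) ⬝ᵥ (b.2 : B → ℤ)) :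
    Function.Injective f := by
  rw [← LinearMap.ker_eq_bot, LinearMap.ker_eq_bot']
  intro a ha
  have h1 := hf a a
  rw [ha, zero_dotProduct] at h1
  have h2 := dot_self_nonneg (a.1 : A → ℤ)
  have h3 := dot_self_nonneg (a.2 : B → ℤ)
  have h4 := eq_zero_of_dot (u := (a.1 : A → ℤ)) (by linarith)
  have h5 := eq_zero_of_dot (u := (a.2 : B → ℤ)) (by linarith)
  exact Prod.ext (Subtype.ext h4) (Subtype.ext h5)

/-- the properties of an embedding of `G.cuts ⊕ G'.flows` with `G'` special -/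
theorem emb_props {G : Multigraph V E} {G' : Multigraph V' E'} (hG' : Sp G') {κ : Type} [Fintype κ]
    (f : (G.cuts × G'.flows) →ₗ[ℤ] (κ → ℤ))
    (hf : ∀ a b, f a ⬝ᵥ f b = (a.1 : E → ℤ) ⬝ᵥ (b.1 : E → ℤ) + (a.2 : E' → ℤ) ⬝ᵥ (b.2 : E' → ℤ)) :
    (∀ a b : G.cuts, f (a, 0) ⬝ᵥ f (b, 0) = (a : E → ℤ) ⬝ᵥ (b : E → ℤ)) ∧
      (∀ x y, f (x, 0) ⬝ᵥ f (0, y) = 0) ∧ (∀ y, Even (f (0, y) ⬝ᵥ f (0, y))) ∧
      ∀ y, (∀ y', Even (f (0, y) ⬝ᵥ f (0, y'))) → ∃ z, y = (2 : ℤ) • z := by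
  have h0 : ∀ y y' : G'.flows, f (0, y) ⬝ᵥ f (0, y') = (y : E' → ℤ) ⬝ᵥ (y' : E' → ℤ) := by
    intro y y'
    rw [hf]; simp
  refine ⟨fun a b => by rw [hf]; simp, fun x y => by rw [hf]; simp, fun y => ?_, fun y hy => ?_⟩
  · rw [h0]
    obtain ⟨c, hc⟩ := hG'.bi
    exact even_norm G' hc y.2
  · obtain ⟨z, hz, hyz⟩ := hG'.od y y.2 fun y' hy' => by
      have := hy ⟨y', hy'⟩
      rw [h0] at this
      exact this
    exact ⟨⟨z, hz⟩, Subtype.ext hyz⟩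

theorem nullity_le {G : Multigraph V E} {G' : Multigraph V' E'} (hG' : Sp G')
    (h : EmbedsLin G G') : Module.finrank ℤ G'.flows ≤ Module.finrank ℤ G.flows := by
  obtain ⟨f, hf⟩ := h
  obtain ⟨h1, h2, h3, h4⟩ := emb_props hG' f hf
  have hu := used f (inj_of_isometry f hf) (by rw [Fintype.card_fin]) h2 h3 h4
  have h5 := card_le (f ∘ₗ LinearMap.inl ℤ _ _) (fun a b => h1 a b) hu
  rw [Fintype.card_fin, ← G.finrank_add] at h5
  omega

theorem isometry_of {G : Multigraph V E} {G' : Multigraph V' E'} (hG' : Sp G')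
    (h : EmbedsLin G G') (hn : Module.finrank ℤ G'.flows = Module.finrank ℤ G.flows) :
    ∃ ψ : G'.flows →ₗ[ℤ] G.flows, ∀ a b, (ψ a : E → ℤ) ⬝ᵥ (ψ b : E → ℤ) =
      (a : E' → ℤ) ⬝ᵥ (b : E' → ℤ) := by
  obtain ⟨f, hf⟩ := h
  obtain ⟨h1, h2, h3, h4⟩ := emb_props hG' f hf
  obtain ⟨ψ, hψ⟩ := exists_isometry G (by rw [Fintype.card_fin, hn, G.finrank_add]) f
    (inj_of_isometry f hf) (by rw [Fintype.card_fin]) h1 h2 h3 h4
  exact ⟨ψ, fun a b => by rw [hψ, hf]; simp⟩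

/-- isometries in both directions yield a signed bijection between the edges -/
theorem iso_of {G : Multigraph V E} {G' : Multigraph V' E'}
    (hG : ∀ e, ∃ x, G.IsFlow x ∧ x e ≠ 0) (hG' : ∀ e, ∃ x, G'.IsFlow x ∧ x e ≠ 0)
    (ψ : G'.flows →ₗ[ℤ] G.flows)
    (hψ : ∀ a b, (ψ a : E → ℤ) ⬝ᵥ (ψ b : E → ℤ) = (a : E' → ℤ) ⬝ᵥ (b : E' → ℤ))
    (ψ' : G.flows →ₗ[ℤ] G'.flows)
    (hψ' : ∀ a b, (ψ' a : E' → ℤ) ⬝ᵥ (ψ' b : E' → ℤ) = (a : E → ℤ) ⬝ᵥ (b : E → ℤ)) :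
    ∃ (σ : E ≃ E') (η : E → ℤˣ), ∀ x : E' → ℤ, G'.IsFlow x ↔ G.IsFlow (fun e => η e * x (σ e)) := by
  have hsurj : Function.Surjective ψ := by
    have h1 := surj_endo G.flows (ψ ∘ₗ ψ') (fun x y => by
      rw [LinearMap.comp_apply, LinearMap.comp_apply, hψ, hψ'])
    intro y
    obtain ⟨x, hx⟩ := h1 y
    exact ⟨ψ' x, hx⟩
  obtain ⟨σ, η, h⟩ := torelli G G' hG hG' ψ hψ hsurj
  refine ⟨σ, η, fun x => ⟨fun hx => ?_, fun hx => ?_⟩⟩
  · have h1 : (fun e => (η e : ℤ) * x (σ e)) = (ψ ⟨x, hx⟩ : E → ℤ) := by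
      funext e
      rw [h ⟨x, hx⟩ e]
    rw [h1]
    exact (ψ ⟨x, hx⟩).2
  · obtain ⟨y, hy⟩ := hsurj ⟨_, hx⟩
    have h1 : x = (y : E' → ℤ) := by
      funext e
      have h2 := h y (σ.symm e)
      rw [hy] at h2
      change (η (σ.symm e) : ℤ) * x (σ (σ.symm e)) =
        η (σ.symm e) * (y : E' → ℤ) (σ (σ.symm e)) at h2
      rw [σ.apply_symm_apply] at h2
      have h3 : (η (σ.symm e) : ℤ) ≠ 0 := Units.ne_zero _
      exact mul_left_cancel₀ h3 h2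
    rw [h1]
    exact y.2

theorem main (G : Multigraph V E) (G' : Multigraph V' E') (hG : Sp G) (hG' : Sp G') :
    (Embeds G G' ∧ Embeds G' G) ↔ ∃ (σ : E ≃ E') (η : E → ℤˣ), ∀ x : E' → ℤ,
      G'.IsFlow x ↔ G.IsFlow (fun e => η e * x (σ e)) := by
  constructor
  · rw [embeds_iff, embeds_iff]
    rintro ⟨h1, h2⟩
    have h3 := nullity_le hG' h1
    have h4 := nullity_le hG h2
    obtain ⟨ψ, hψ⟩ := isometry_of hG' h1 (le_antisymm h3 h4)
    obtain ⟨ψ', hψ'⟩ := isometry_of hG h2 (le_antisymm h4 h3)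
    exact iso_of hG.br hG'.br ψ hψ ψ' hψ'
  · rintro ⟨σ, η, h⟩
    refine ⟨embeds_of G G' σ η h, embeds_of G' G σ.symm (fun e => η (σ.symm e)) fun x => ?_⟩
    rw [h]
    have h1 : (fun e => (η e : ℤ) * (η (σ.symm (σ e)) * x (σ.symm (σ e)))) = x := by
      funext e
      rw [σ.symm_apply_apply, ← mul_assoc, unit_mul_self, one_mul]
    rw [h1]

end

end Pool.Agent.H754.Special
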