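import Pool.Agent.H754.Special.Sharp
import Pool.Agent.H754.Special.Main

/-!
Rigidity of sharp embeddings of lattices of flows.
-/

set_option autoImplicit false
set_option linter.unusedSectionVars false

namespace Pool.Agent.H754.Special

open Finset Matrix
open Pool.Agent.H762.TG Pool.Agent.H762.TG.Multigraph

section

variable {κ M V E : Type} [Fintype κ] [DecidableEq κ] [AddCommGroup M] [Module.Free ℤ M]
  [Module.Finite ℤ M] [Fintype V] [Fintype E] [DecidableEq V] [DecidableEq E]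
  {G : Multigraph V E}

theorem term_le {a b : ℤ} (ha : a = 1 ∨ a = -1) : a * b ≤ b ^ 2 := by
  rcases ha with h | h <;> rw [h] <;> nlinarith [Int.le_self_sq b, Int.le_self_sq (-b)]

theorem dot_le {F : Type} [Fintype F] {o y : F → ℤ} (ho : ∀ e, o e = 1 ∨ o e = -1) :
    o ⬝ᵥ y ≤ y ⬝ᵥ y := by
  rw [dot_self]
  exact sum_le_sum fun e _ => term_le (ho e)

theorem dot_ge {F : Type} [Fintype F] {o y : F → ℤ} (ho : ∀ e, o e = 1 ∨ o e = -1) :
    -(y ⬝ᵥ y) ≤ o ⬝ᵥ y := by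
  have h1 := dot_le (y := -y) ho
  rw [dotProduct_neg, neg_dotProduct, dotProduct_neg] at h1
  linarith

theorem eq_case {a b : ℤ} (h : a * b = b ^ 2) : b = 0 ∨ b = a := by
  have h1 : b * (b - a) = 0 := by linarith [sq b, mul_comm a b]
  rcases mul_eq_zero.1 h1 with h2 | h2
  · exact Or.inl h2
  · exact Or.inr (by linarith)

theorem dot_eq {F : Type} [Fintype F] {o y : F → ℤ} (ho : ∀ e, o e = 1 ∨ o e = -1)
    (h : o ⬝ᵥ y = y ⬝ᵥ y) (e : F) : y e = 0 ∨ y e = o e := by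
  rw [dot_self, dotProduct] at h
  have h1 := (sum_eq_sum_iff_of_le fun e _ => term_le (b := y e) (ho e)).1 h e (mem_univ e)
  exact eq_case h1

theorem even_dot {o y : E → ℤ} (ho : ∀ e, o e = 1 ∨ o e = -1) (hy : Even (y ⬝ᵥ y)) :
    Even (o ⬝ᵥ y) := by
  have h1 : o ⬝ᵥ y = y ⬝ᵥ y - ∑ e, (y e * y e - o e * y e) := by
    rw [sum_sub_distrib]
    simp only [dotProduct]
    ring
  rw [h1]
  refine hy.sub (Finset.even_sum _ fun e _ => ?_)
  rcases ho e with h | h <;> rw [h]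
  · have : y e * y e - 1 * y e = (y e - 1) * (y e - 1 + 1) := by ring
    rw [this]
    exact Int.even_mul_succ_self _
  · have : y e * y e - -1 * y e = y e * (y e + 1) := by ring
    rw [this]
    exact Int.even_mul_succ_self _

/-- every orientation is realised by a vector with entries `±1` -/
theorem exists_orient {f : (M × G.flows) →ₗ[ℤ] (κ → ℤ)} (h : ShEmb f)
    (hf : ∀ x y : G.flows, f (0, x) ⬝ᵥ f (0, y) = (x : E → ℤ) ⬝ᵥ (y : E → ℤ)) {o : E → ℤ}
    (ho : ∀ e, o e = 1 ∨ o e = -1) :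
    ∃ e : κ → ℤ, (∀ i, e i = 1 ∨ e i = -1) ∧ ∀ y : G.flows, e ⬝ᵥ f (0, y) = o ⬝ᵥ (y : E → ℤ) := by
  obtain ⟨e₀, he₀, hey⟩ := h.exists_pm
  have hev : ∀ y : G.flows, Even (o ⬝ᵥ (y : E → ℤ)) := fun y =>
    even_dot ho (by rw [← hf]; exact h.even y)
  have hhalf : ∀ y : G.flows, 2 * ((o ⬝ᵥ (y : E → ℤ)) / 2) = o ⬝ᵥ (y : E → ℤ) := fun y =>
    Int.two_mul_ediv_two_of_even (hev y)
  let g : G.flows →ₗ[ℤ] ℤ :=
    { toFun := fun y => (o ⬝ᵥ (y : E → ℤ)) / 2
      map_add' := fun x y => by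
        have h1 := hhalf x
        have h2 := hhalf y
        have h3 := hhalf (x + y)
        have h4 : o ⬝ᵥ ((x + y : G.flows) : E → ℤ) = o ⬝ᵥ (x : E → ℤ) + o ⬝ᵥ (y : E → ℤ) :=
          dotProduct_add _ _ _
        omega
      map_smul' := fun c y => by
        have h2 := hhalf y
        have h3 := hhalf (c • y)
        have h4 : o ⬝ᵥ ((c • y : G.flows) : E → ℤ) = c * (o ⬝ᵥ (y : E → ℤ)) :=
          dotProduct_smul _ _ _
        have h5 : c * (o ⬝ᵥ (y : E → ℤ)) = 2 * (c * ((o ⬝ᵥ (y : E → ℤ)) / 2)) := by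
          calc c * (o ⬝ᵥ (y : E → ℤ)) = c * (2 * ((o ⬝ᵥ (y : E → ℤ)) / 2)) := by rw [h2]
            _ = _ := by ring
        simp only [RingHom.id_apply, smul_eq_mul]
        rw [h4] at h3 ⊢
        linarith }
  obtain ⟨z, hz⟩ := h.ext g
  obtain ⟨e, he, a, b, hx⟩ := h.cub (e₀ + (2 : ℤ) • z) (by
    intro i
    have : (e₀ + (2 : ℤ) • z) i = e₀ i + 2 * z i := rfl
    rw [this]
    rcases he₀ i with h1 | h1 <;> rw [h1]
    · exact ⟨z i, by ring⟩
    · exact ⟨z i - 1, by ring⟩)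
  have hxy : ∀ y : G.flows, e ⬝ᵥ f (0, y) + 2 * ((b : E → ℤ) ⬝ᵥ (y : E → ℤ)) =
      o ⬝ᵥ (y : E → ℤ) := by
    intro y
    have h1 : (e₀ + (2 : ℤ) • z) ⬝ᵥ f (0, y) = o ⬝ᵥ (y : E → ℤ) := by
      rw [add_dotProduct, hey, smul_dotProduct, hz, zero_add, smul_eq_mul]
      exact hhalf y
    rw [hx, add_dotProduct, smul_dotProduct, add_dotProduct, h.orth, zero_add, hf,
      smul_eq_mul] at h1
    exact h1
  have h1 := hxy b
  have h2 := dot_le (y := (b : E → ℤ)) ho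
  have h3 := dot_ge (y := f (0, b)) he
  rw [hf] at h3
  have h4 : e ⬝ᵥ (-f (0, b)) = (-f (0, b)) ⬝ᵥ (-f (0, b)) := by
    rw [dotProduct_neg, neg_dotProduct, dotProduct_neg, hf]
    linarith
  have h5 := dot_eq he h4
  refine ⟨e + (2 : ℤ) • f (0, b), fun i => ?_, fun y => ?_⟩
  · have h6 := h5 i
    rw [Pi.neg_apply] at h6
    have h7 : (e + (2 : ℤ) • f (0, b)) i = e i + 2 * f (0, b) i := rfl
    rw [h7]
    rcases h6 with h6 | h6
    · have : f (0, b) i = 0 := by linarith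
      rw [this, mul_zero, add_zero]
      exact he i
    · have : f (0, b) i = -e i := by linarith
      rw [this]
      rcases he i with h8 | h8 <;> rw [h8]
      · right; norm_num
      · left; norm_num
  · rw [add_dotProduct, smul_dotProduct, hf, smul_eq_mul]
    exact hxy y

/-- unit flows are mapped to unit vectors -/
theorem unit_map {f : (M × G.flows) →ₗ[ℤ] (κ → ℤ)} (h : ShEmb f)
    (hf : ∀ x y : G.flows, f (0, x) ⬝ᵥ f (0, y) = (x : E → ℤ) ⬝ᵥ (y : E → ℤ)) (y : G.flows)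
    (hy : IsUnit' (y : E → ℤ)) : IsUnit' (f (0, y)) := by
  obtain ⟨e, he, hey⟩ := exists_orient h hf (o := fun e => if (y : E → ℤ) e = -1 then -1 else 1)
    (fun e => by split_ifs <;> simp)
  have h1 : e ⬝ᵥ f (0, y) = f (0, y) ⬝ᵥ f (0, y) := by
    rw [hey, hf]
    apply sum_congr rfl
    intro i _
    rcases hy i with h2 | h2 | h2 <;> simp [h2]
  intro i
  rcases dot_eq he h1 i with h2 | h2
  · exact Or.inl h2
  · rw [h2]
    exact Or.inr (he i)

end

section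

variable {κ V E : Type} [Fintype κ] [DecidableEq κ] [Fintype V] [Fintype E] [DecidableEq V]
  [DecidableEq E]

/-- Isometric maps which map unit flows to unit vectors are standard. -/
theorem rigid (G : Multigraph V E) (hG : ∀ e, ∃ x, G.IsFlow x ∧ x e ≠ 0)
    (ψ : G.flows →ₗ[ℤ] (κ → ℤ))
    (hψ : ∀ a b, ψ a ⬝ᵥ ψ b = (a : E → ℤ) ⬝ᵥ (b : E → ℤ))
    (hunit : ∀ y : G.flows, IsUnit' (y : E → ℤ) → IsUnit' (ψ y)) :
    ∃ (τ : E → κ) (η : E → ℤˣ), Function.Injective τ ∧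
      (∀ (x : G.flows) (e : E), ψ x (τ e) = η e * (x : E → ℤ) e) ∧
      ∀ (x : G.flows) (i : κ), (∀ e, τ e ≠ i) → ψ x i = 0 := by
  classical
  -- unit flows through all edges
  have hun : ∀ e, ∃ u, G.IsFlow u ∧ IsUnit' u ∧ u e ≠ 0 := by
    intro e
    obtain ⟨x, hx, hxe⟩ := hG e
    obtain ⟨d, hd, hc, hde⟩ := G.exists_conf hx hxe
    refine ⟨d, hd, conf_unit hc, ?_⟩
    rw [hde]
    rcases sign_cases _ hxe with ⟨-, h⟩ | ⟨-, h⟩ <;> rw [h] <;> norm_num
  have hodd : ∀ {E : Type} {u : E → ℤ} (_ : IsUnit' u) {e : E} (_ : u e ≠ 0),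
      ((u e : ℤ) : ZMod 2) ≠ 0 := by
    intro E u hu e he
    rcases hu e with h | h | h
    · exact absurd h he
    · rw [h]; decide
    · rw [h]; decide
  -- weights of unit vectors
  have hwu : ∀ {F : Type} [Fintype F] {u : F → ℤ}, IsUnit' u → (wt u : ℤ) = u ⬝ᵥ u := by
    intro F _ u hu
    rw [wt_eq, dot_self]
    apply sum_congr rfl
    intro e _
    rcases hu e with h | h | h
    · rw [h, if_neg (by simp)]; rfl
    · rw [h, if_pos (by decide)]; rfl
    · rw [h, if_pos (by decide)]; rfl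
  have hwc : ∀ {F : Type} [Fintype F] (u z : F → ℤ), wt (u + (2 : ℤ) • z) = wt u := by
    intro F _ u z
    unfold wt
    have h1 : ∀ e, (((u + (2 : ℤ) • z) e : ℤ) : ZMod 2) = ((u e : ℤ) : ZMod 2) := by
      intro e
      simp only [Pi.add_apply, Pi.smul_apply, smul_eq_mul, Int.cast_add, Int.cast_mul]
      have : ((2 : ℤ) : ZMod 2) = 0 := by decide
      rw [this, zero_mul, add_zero]
    simp only [h1]
  have hwt : ∀ x : G.flows, wt (ψ x) = wt (x : E → ℤ) := by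
    intro x
    obtain ⟨u, z, hu, hz, he, huu⟩ := G.exists_unit_mod_two _ x x.2 le_rfl
    have h1 : x = (⟨u, hu⟩ : G.flows) + (2 : ℤ) • (⟨z, hz⟩ : G.flows) := Subtype.ext he
    have h2 : wt (x : E → ℤ) = wt u := by rw [he, hwc]
    have h3 : wt (ψ x) = wt (ψ ⟨u, hu⟩) := by rw [h1, map_add, map_smul, hwc]
    have h4 := hwu (hunit ⟨u, hu⟩ huu)
    have h5 := hwu huu
    rw [hψ] at h4
    rw [h2, h3]
    exact_mod_cast h4.trans h5.symm
  -- a basis
  let b := Module.finBasis ℤ G.flows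
  set r := Module.finrank ℤ G.flows with hr
  let l : κ → Fin r → ZMod 2 := fun e i => ((ψ (b i) e : ℤ) : ZMod 2)
  let l' : E → Fin r → ZMod 2 := fun e i => ((((b i : G.flows) : E → ℤ) e : ℤ) : ZMod 2)
  have hexp' : ∀ (x : G.flows) (e : E), (((x : E → ℤ) e : ℤ) : ZMod 2) =
      (fun i => ((b.repr x i : ℤ) : ZMod 2)) ⬝ᵥ l' e := by
    intro x e
    have h1 : (x : E → ℤ) e = ∑ i, b.repr x i * ((b i : G.flows) : E → ℤ) e := by
      conv_lhs => rw [← b.sum_repr x]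
      rw [AddSubmonoidClass.coe_finsetSum, Finset.sum_apply]
      rfl
    rw [h1, Int.cast_sum, dotProduct]
    apply sum_congr rfl
    intro i _
    rw [Int.cast_mul]
  have hexp : ∀ (x : G.flows) (e : κ), ((ψ x e : ℤ) : ZMod 2) =
      (fun i => ((b.repr x i : ℤ) : ZMod 2)) ⬝ᵥ l e := by
    intro x e
    have h1 : ψ x e = ∑ i, b.repr x i * ψ (b i) e := by
      conv_lhs => rw [← b.sum_repr x]
      rw [map_sum, Finset.sum_apply]
      apply sum_congr rfl
      intro i _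
      rw [map_smul]
      rfl
    rw [h1, Int.cast_sum, dotProduct]
    apply sum_congr rfl
    intro i _
    rw [Int.cast_mul]
  have hl0' : ∀ e, l' e ≠ 0 := by
    intro e he
    obtain ⟨u, hu, huu, hue⟩ := hun e
    have h1 := hexp' ⟨u, hu⟩ e
    rw [he, dotProduct_zero] at h1
    exact hodd huu hue h1
  let κ₁ := {i : κ // l i ≠ 0}
  let l₁ : κ₁ → Fin r → ZMod 2 := fun i => l i.1
  have hw : ∀ n : Fin r → ZMod 2, Fintype.card {e // n ⬝ᵥ l₁ e ≠ 0} =
      Fintype.card {e // n ⬝ᵥ l' e ≠ 0} := by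
    intro n
    let x : G.flows := ∑ i, ((n i).val : ℤ) • b i
    have hx : (fun i => ((b.repr x i : ℤ) : ZMod 2)) = n := by
      funext i
      have : b.repr x i = ((n i).val : ℤ) := by
        simp only [x, map_sum, map_smul, Module.Basis.repr_self, Finsupp.coe_finsetSum,
          Finset.sum_apply, Finsupp.smul_apply, smul_eq_mul, Finsupp.single_apply]
        simp
      rw [this]
      simp
    have h1 := hwt x
    unfold wt at h1
    simp only [hexp, hexp', hx] at h1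
    rw [← h1]
    apply Fintype.card_congr
    exact
      { toFun := fun e => ⟨e.1.1, e.2⟩
        invFun := fun e => ⟨⟨e.1, fun h0 => e.2 (by rw [h0, dotProduct_zero])⟩, e.2⟩
        left_inv := fun _ => rfl
        right_inv := fun _ => rfl }
  have hfib := fibres l₁ l' (fun e => e.2) hl0' hw
  choose g _ using fun μ => (⟨Fintype.equivOfCardEq (hfib μ), trivial⟩ :
    ∃ _ : {e // l₁ e = μ} ≃ {e // l' e = μ}, True)
  let σ : κ₁ ≃ E := (Equiv.sigmaFiberEquiv l₁).symm.trans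
    ((Equiv.sigmaCongrRight g).trans (Equiv.sigmaFiberEquiv l'))
  have hσ : ∀ e, l' (σ e) = l e.1 := fun e => (g (l₁ e) ⟨e, rfl⟩).2
  -- parities
  have hpar : ∀ (x : G.flows) (e : κ₁), ((ψ x e.1 : ℤ) : ZMod 2) =
      (((x : E → ℤ) (σ e) : ℤ) : ZMod 2) := by
    intro x e
    rw [hexp, hexp', hσ]
  -- unit flows vanish outside
  have hout1 : ∀ (x : G.flows), IsUnit' (x : E → ℤ) → ∀ i, l i = 0 → ψ x i = 0 := by
    intro x hx i hi
    by_contra hne
    apply hodd (hunit x hx) hne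
    rw [hexp, hi, dotProduct_zero]
  -- squares, for unit flows
  have hsqr : ∀ x : G.flows, IsUnit' (x : E → ℤ) → ∀ e : κ₁,
      ψ x e.1 ^ 2 = (x : E → ℤ) (σ e) ^ 2 := by
    intro x hx e
    have h1 := hpar x e
    rcases hx (σ e) with h2 | h2 | h2 <;> rcases hunit x hx e.1 with h3 | h3 | h3 <;>
      rw [h2, h3] at h1 ⊢ <;> first | rfl | (exfalso; revert h1; decide)
  -- zeros
  have hzero : ∀ (x : G.flows) (e : κ₁), (x : E → ℤ) (σ e) = 0 → ψ x e.1 = 0 := by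
    intro x e he
    have h1 := G.flow_mem_span _ x x.2 le_rfl
    let K : Submodule ℤ G.flows := LinearMap.ker ((LinearMap.proj e.1 : (κ → ℤ) →ₗ[ℤ] ℤ) ∘ₗ ψ)
    have h2 : (x : E → ℤ) ∈ K.map G.flows.subtype := by
      refine (Submodule.span_le.2 ?_) h1
      rintro d ⟨hd, hdu, hdv⟩
      refine ⟨⟨d, hd⟩, ?_, rfl⟩
      rw [SetLike.mem_coe, LinearMap.mem_ker]
      change ψ ⟨d, hd⟩ e.1 = 0
      have h3 := hsqr ⟨d, hd⟩ hdu e
      have h4 : d (σ e) = 0 := hdv _ he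
      change ψ ⟨d, hd⟩ e.1 ^ 2 = d (σ e) ^ 2 at h3
      rw [h4] at h3
      exact pow_eq_zero_iff (two_ne_zero) |>.1 (by rw [h3]; rfl)
    obtain ⟨y, hy, hyx⟩ := h2
    have h3 : y = x := Subtype.ext hyx
    rw [h3] at hy
    exact hy
  have hout : ∀ (x : G.flows) (i : κ), l i = 0 → ψ x i = 0 := by
    intro x i hi
    have h1 := G.flow_mem_span _ x x.2 le_rfl
    let K : Submodule ℤ G.flows := LinearMap.ker ((LinearMap.proj i : (κ → ℤ) →ₗ[ℤ] ℤ) ∘ₗ ψ)
    have h2 : (x : E → ℤ) ∈ K.map G.flows.subtype := by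
      refine (Submodule.span_le.2 ?_) h1
      rintro d ⟨hd, hdu, hdv⟩
      exact ⟨⟨d, hd⟩, hout1 ⟨d, hd⟩ hdu i hi, rfl⟩
    obtain ⟨y, hy, hyx⟩ := h2
    have h3 : y = x := Subtype.ext hyx
    rw [h3] at hy
    exact hy
  -- signs
  choose u hu huu hue using hun
  have hsgn : ∀ e : κ₁, ∃ η : ℤˣ, (η : ℤ) = ψ ⟨u (σ e), hu _⟩ e.1 * u (σ e) (σ e) := by
    intro e
    have h1 := hsqr ⟨u (σ e), hu _⟩ (huu _) e
    have h2 : u (σ e) (σ e) ^ 2 = 1 := by
      rcases huu (σ e) (σ e) with h | h | h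
      · exact absurd h (hue _)
      · rw [h]; rfl
      · rw [h]; rfl
    have h3 : (ψ ⟨u (σ e), hu _⟩ e.1 * u (σ e) (σ e)) ^ 2 = 1 := by
      rw [mul_pow, h1]
      change u (σ e) (σ e) ^ 2 * u (σ e) (σ e) ^ 2 = 1
      rw [h2]; rfl
    rw [sq] at h3
    rcases mul_self_eq_one_iff.1 h3 with h | h
    · exact ⟨1, by rw [h]; rfl⟩
    · exact ⟨-1, by rw [h]; rfl⟩
  choose η hη using hsgn
  have hval : ∀ (x : G.flows) (e : κ₁), ψ x e.1 = η e * (x : E → ℤ) (σ e) := by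
    intro x e
    have h2 : u (σ e) (σ e) ^ 2 = 1 := by
      rcases huu (σ e) (σ e) with h | h | h
      · exact absurd h (hue _)
      · rw [h]; rfl
      · rw [h]; rfl
    let c : ℤ := (x : E → ℤ) (σ e) * u (σ e) (σ e)
    have h3 := hzero (x - c • ⟨u (σ e), hu _⟩) e (by
      change (x : E → ℤ) (σ e) - c * u (σ e) (σ e) = 0
      simp only [c]
      rw [mul_assoc, ← sq, h2]
      ring)
    rw [map_sub, map_smul] at h3
    change ψ x e.1 - c * ψ ⟨u (σ e), hu _⟩ e.1 = 0 at h3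
    rw [hη]
    simp only [c] at h3
    linarith
  refine ⟨fun e => (σ.symm e).1, fun e => η (σ.symm e), ?_, fun x e => ?_, fun x i hi => ?_⟩
  · exact Subtype.val_injective.comp σ.symm.injective
  · rw [hval, σ.apply_symm_apply]
  · by_contra hne
    have h1 : l i ≠ 0 := fun h0 => hne (hout x i h0)
    exact hi (σ ⟨i, h1⟩) (by
      change (σ.symm (σ ⟨i, h1⟩)).1 = i
      rw [σ.symm_apply_apply])

end

end Pool.Agent.H754.Special
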