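import Pool.Agent.H754.Special.Std

/-!
If the number of coordinates is the number of edges then the embedding is standard.
-/

set_option autoImplicit false
set_option linter.unusedSectionVars false

namespace Pool.Agent.H754.Special

open Finset Matrix
open Pool.Agent.H762.TG Pool.Agent.H762.TG.Multigraph

/-- integers with sum zero and sum of squares two -/
theorem two_values {V : Type} [Fintype V] [DecidableEq V] (a : V → ℤ) (h0 : ∑ v, a v = 0)
    (h2 : ∑ v, a v ^ 2 = 2) : ∃ s t, s ≠ t ∧ ∀ v, a v = (if v = t then 1 else 0) -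
      if v = s then 1 else 0 := by
  have hle : ∀ v, a v ^ 2 ≤ 2 := by
    intro v
    rw [← h2]
    exact single_le_sum (f := fun v => a v ^ 2) (fun v _ => sq_nonneg _) (mem_univ v)
  have hv : ∀ v, a v = 0 ∨ a v = 1 ∨ a v = -1 := by
    intro v
    have h := hle v
    have h1 : a v ≤ 1 := by nlinarith
    have h3 : -1 ≤ a v := by nlinarith
    omega
  have hsq : ∀ v, a v ^ 2 = (if a v = 1 then 1 else 0) + if a v = -1 then 1 else 0 := by
    intro v
    rcases hv v with h | h | h <;> rw [h] <;> norm_num
  have hlin : ∀ v, a v = (if a v = 1 then 1 else 0) - if a v = -1 then 1 else 0 := by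
    intro v
    rcases hv v with h | h | h <;> rw [h] <;> norm_num
  rw [sum_congr rfl fun v _ => hsq v, sum_add_distrib] at h2
  rw [sum_congr rfl fun v _ => hlin v, sum_sub_distrib] at h0
  have e1 : ∑ v, (if a v = 1 then (1 : ℤ) else 0) = 1 := by linarith
  have e2 : ∑ v, (if a v = -1 then (1 : ℤ) else 0) = 1 := by linarith
  rw [sum_boole] at e1 e2
  have c1 : (univ.filter fun v => a v = 1).card = 1 := by exact_mod_cast e1
  have c2 : (univ.filter fun v => a v = -1).card = 1 := by exact_mod_cast e2
  obtain ⟨t, ht⟩ := card_eq_one.1 c1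
  obtain ⟨s, hs⟩ := card_eq_one.1 c2
  have ht' : ∀ v, a v = 1 ↔ v = t := fun v => by
    have := Finset.ext_iff.1 ht v
    simpa using this
  have hs' : ∀ v, a v = -1 ↔ v = s := fun v => by
    have := Finset.ext_iff.1 hs v
    simpa using this
  refine ⟨s, t, ?_, fun v => ?_⟩
  · rintro rfl
    have h1 := (ht' s).2 rfl
    have h3 := (hs' s).2 rfl
    omega
  · rcases hv v with h | h | h
    · have h1 : v ≠ t := fun h' => by have := (ht' v).2 h'; omega
      have h3 : v ≠ s := fun h' => by have := (hs' v).2 h'; omega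
      rw [if_neg h1, if_neg h3, h]; rfl
    · have h1 := (ht' v).1 h
      have h3 : v ≠ s := fun h' => by have := (hs' v).2 h'; omega
      rw [if_pos h1, if_neg h3, h]; rfl
    · have h1 := (hs' v).1 h
      have h3 : v ≠ t := fun h' => by have := (ht' v).2 h'; omega
      rw [if_neg h3, if_pos h1, h]; rfl

section std

variable {V E κ : Type} [Fintype V] [Fintype E] [Fintype κ] [DecidableEq V] [DecidableEq E]
  [DecidableEq κ] {G : Multigraph V E} (φ : G.cuts →ₗ[ℤ] (κ → ℤ))

theorem standard (hφ : ∀ a b : G.cuts, φ a ⬝ᵥ φ b = (a : E → ℤ) ⬝ᵥ (b : E → ℤ))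
    (hu : ∀ i, ∃ x, φ x i ≠ 0) (hc : Fintype.card κ = Fintype.card E) :
    ∃ (τ : E ≃ κ) (η : E → ℤˣ), ∀ (x : G.cuts) (e : E), φ x (τ e) = η e * (x : E → ℤ) e := by
  have h1 := total φ hφ
  have h2 : ∀ i ∈ univ, (2 : ℤ) ≤ ∑ v, φ (star G v) i ^ 2 := fun i _ => col_norm φ hu i
  have h3 : (univ.filter fun e => G.src e ≠ G.tgt e).card ≤ Fintype.card E := card_le_univ _
  have h4 : ((univ.filter fun e => G.src e ≠ G.tgt e).card : ℤ) ≤ Fintype.card E := by
    exact_mod_cast h3
  have h5 : ∑ _i : κ, (2 : ℤ) = 2 * (Fintype.card E : ℤ) := by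
    rw [sum_const, card_univ, hc, nsmul_eq_mul]; ring
  have h6 : ∑ _i : κ, (2 : ℤ) = ∑ i, ∑ v, φ (star G v) i ^ 2 := by
    apply le_antisymm (sum_le_sum h2)
    rw [h5, h1]
    linarith
  have h7 : ∀ i, ∑ v, φ (star G v) i ^ 2 = 2 := fun i =>
    ((sum_eq_sum_iff_of_le h2).1 h6 i (mem_univ i)).symm
  have h8 : (univ.filter fun e => G.src e ≠ G.tgt e).card = Fintype.card E := by
    have : ((univ.filter fun e => G.src e ≠ G.tgt e).card : ℤ) = Fintype.card E := by
      rw [h5, h1] at h6
      linarith
    exact_mod_cast this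
  have hloop : ∀ e, G.src e ≠ G.tgt e := by
    intro e
    have h9 : (univ.filter fun e => G.src e ≠ G.tgt e) = univ := by
      rw [← card_eq_iff_eq_univ]; exact h8
    have h10 : e ∈ (univ.filter fun e => G.src e ≠ G.tgt e) := by rw [h9]; exact mem_univ e
    exact (mem_filter.1 h10).2
  choose s t hst ha using fun i => two_values (fun v => φ (star G v) i) (col_sum φ i) (h7 i)
  -- numbers of edges
  have hfib : ∀ z : Sym2 V, Fintype.card {e // s(G.src e, G.tgt e) = z} =
      Fintype.card {i // s(s i, t i) = z} := by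
    intro z
    induction z using Sym2.ind with
    | _ u v =>
      by_cases huv : u = v
      · subst huv
        rw [Fintype.card_eq_zero_iff.2, Fintype.card_eq_zero_iff.2]
        · constructor
          rintro ⟨i, hi⟩
          rw [Sym2.eq_iff] at hi
          apply hst i
          rcases hi with h | h <;> rw [h.1, h.2]
        · constructor
          rintro ⟨e, he⟩
          rw [Sym2.eq_iff] at he
          apply hloop e
          rcases he with h | h <;> rw [h.1, h.2]
      · have k1 := hφ (star G u) (star G v)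
        have gen : ∀ {F : Type} [Fintype F] (s t : F → V) (f g : F → ℤ), (∀ i, s i ≠ t i) →
            (∀ i, f i = (if u = t i then 1 else 0) - if u = s i then 1 else 0) →
            (∀ i, g i = (if v = t i then 1 else 0) - if v = s i then 1 else 0) →
            f ⬝ᵥ g = -(Fintype.card {i // s(s i, t i) = s(u, v)} : ℤ) := by
          intro F _ s t f g hne hf hg
          rw [Fintype.card_subtype, dotProduct, card_filter]
          push_cast
          rw [← sum_neg_distrib]
          apply sum_congr rfl
          intro i _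
          have hi := hne i
          rw [hf, hg]
          by_cases c : s(s i, t i) = s(u, v)
          · rw [if_pos c]
            rw [Sym2.eq_iff] at c
            rcases c with ⟨c1, c2⟩ | ⟨c1, c2⟩
            · rw [if_neg (fun h => huv (h.trans c2)), if_pos c1.symm, if_pos c2.symm,
                if_neg (fun h => huv (c1.symm.trans h.symm))]
              norm_num
            · rw [if_pos c2.symm, if_neg (fun h => huv (h.trans c1)),
                if_neg (fun h => huv (c2.symm.trans h.symm)), if_pos c1.symm]
              norm_num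
          · rw [if_neg c]
            by_cases d1 : u = t i
            · have d2 : u ≠ s i := fun h => hi (h.symm.trans d1)
              have d3 : v ≠ s i := fun h => c (by rw [← d1, ← h, Sym2.eq_swap])
              have d4 : v ≠ t i := fun h => huv (d1.trans h.symm)
              rw [if_pos d1, if_neg d2, if_neg d3, if_neg d4]; norm_num
            · by_cases d2 : u = s i
              · have d3 : v ≠ t i := fun h => c (by rw [← d2, ← h])
                have d4 : v ≠ s i := fun h => huv (d2.trans h.symm)
                rw [if_neg d1, if_pos d2, if_neg d3, if_neg d4]; norm_num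
              · rw [if_neg d1, if_neg d2]; norm_num
        have k2 := gen s t (φ (star G u)) (φ (star G v)) hst (fun i => ha i u) (fun i => ha i v)
        have k3 := gen G.src G.tgt (star G u : E → ℤ) (star G v : E → ℤ) hloop
          (fun e => by rw [star_apply]; simp only [eq_comm]) (fun e => by rw [star_apply]; simp only [eq_comm])
        rw [k2, k3] at k1
        have k4 : (Fintype.card {i // s(s i, t i) = s(u, v)} : ℤ) =
            Fintype.card {i // s(G.src i, G.tgt i) = s(u, v)} := neg_injective k1
        exact_mod_cast k4.symm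
  choose g _ using fun z => (⟨Fintype.equivOfCardEq (hfib z), trivial⟩ :
    ∃ _ : {e // s(G.src e, G.tgt e) = z} ≃ {i // s(s i, t i) = z}, True)
  let τ : E ≃ κ := (Equiv.sigmaFiberEquiv fun e => s(G.src e, G.tgt e)).symm.trans
    ((Equiv.sigmaCongrRight g).trans (Equiv.sigmaFiberEquiv fun i => s(s i, t i)))
  have hτ : ∀ e, s(s (τ e), t (τ e)) = s(G.src e, G.tgt e) := fun e =>
    (g s(G.src e, G.tgt e) ⟨e, rfl⟩).2
  have hphi : ∀ (y : V → ℤ) i, φ ⟨G.cut y, G.mem_cuts.2 ⟨_, rfl⟩⟩ i = y (t i) - y (s i) := by
    intro y i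
    rw [phi_cut]
    simp only [ha, mul_sub, sum_sub_distrib, mul_ite, mul_one, mul_zero, sum_ite_eq', mem_univ,
      if_true]
  refine ⟨τ, fun e => if s (τ e) = G.src e then 1 else -1, fun x e => ?_⟩
  obtain ⟨y, hy⟩ := G.mem_cuts.1 x.2
  have hx : x = ⟨G.cut y, G.mem_cuts.2 ⟨_, rfl⟩⟩ := Subtype.ext hy
  rw [hx, hphi]
  change y (t (τ e)) - y (s (τ e)) = ((if s (τ e) = G.src e then (1 : ℤˣ) else -1 : ℤˣ) : ℤ) *
    (y (G.tgt e) - y (G.src e))
  have h9 := hτ e
  rw [Sym2.eq_iff] at h9
  rcases h9 with ⟨c1, c2⟩ | ⟨c1, c2⟩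
  · rw [if_pos c1, c1, c2]; simp
  · have c3 : s (τ e) ≠ G.src e := by rw [c1]; exact (hloop e).symm
    rw [if_neg c3, c1, c2]; push_cast; ring

end std

end Pool.Agent.H754.Special
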