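import Pool.Agent.H754.Special.Rigid

/-!
Sharp fillings of knots concordant to special alternating knots.
-/

set_option autoImplicit false
set_option linter.unusedSectionVars false

namespace Pool.Agent.H754.Special

open Finset Matrix
open Pool.Agent.H762.TG Pool.Agent.H762.TG.Multigraph

section

variable {κ M V E : Type} [Fintype κ] [DecidableEq κ] [AddCommGroup M] [Module.Free ℤ M]
  [Module.Finite ℤ M] [Fintype V] [Fintype E] [DecidableEq V] [DecidableEq E]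
  {G : Multigraph V E}

/-- the summand of flows is standard -/
theorem flows_standard (hG : ∀ e, ∃ x, G.IsFlow x ∧ x e ≠ 0) {f : (M × G.flows) →ₗ[ℤ] (κ → ℤ)}
    (h : ShEmb f)
    (hf : ∀ x y : G.flows, f (0, x) ⬝ᵥ f (0, y) = (x : E → ℤ) ⬝ᵥ (y : E → ℤ)) :
    ∃ (τ : E → κ) (η : E → ℤˣ), Function.Injective τ ∧
      (∀ (x : G.flows) (e : E), f (0, x) (τ e) = η e * (x : E → ℤ) e) ∧
      ∀ (x : G.flows) (i : κ), (∀ e, τ e ≠ i) → f (0, x) i = 0 :=
  rigid G hG (f ∘ₗ LinearMap.inr ℤ _ _) (fun a b => hf a b) (fun y hy => unit_map h hf y hy)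

theorem sum_split {τ : E → κ} (hτ : Function.Injective τ) (g : κ → ℤ) :
    ∑ i, g i = ∑ e, g (τ e) + ∑ i with ∀ e, τ e ≠ i, g i := by
  rw [← sum_filter_add_sum_filter_not univ (fun i => ∃ e, τ e = i)]
  congr 1
  · have h1 : (univ.filter fun i => ∃ e, τ e = i) = univ.image τ := by
      ext i; simp
    rw [h1, sum_image fun _ _ _ _ h => hτ h]
  · apply sum_congr _ fun _ _ => rfl
    ext i
    simp

theorem dot_split {τ : E → κ} (hτ : Function.Injective τ) {v w : κ → ℤ}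
    (hw : ∀ i, (∀ e, τ e ≠ i) → w i = 0) : v ⬝ᵥ w = ∑ e, v (τ e) * w (τ e) := by
  rw [dotProduct, sum_split hτ, add_eq_left]
  apply sum_eq_zero
  intro i hi
  rw [hw i (mem_filter.1 hi).2, mul_zero]

/-- the first summand embeds in the sum of the lattice of cuts and a standard lattice -/
theorem fill (hG : ∀ e, ∃ x, G.IsFlow x ∧ x e ≠ 0) {f : (M × G.flows) →ₗ[ℤ] (κ → ℤ)}
    (h : ShEmb f)
    (hf : ∀ x y : G.flows, f (0, x) ⬝ᵥ f (0, y) = (x : E → ℤ) ⬝ᵥ (y : E → ℤ)) :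
    Fintype.card E ≤ Fintype.card κ ∧
      ∃ (χ : M →ₗ[ℤ] G.cuts) (ω : M →ₗ[ℤ] (Fin (Fintype.card κ - Fintype.card E) → ℤ)),
        ∀ x y, f (x, 0) ⬝ᵥ f (y, 0) = (χ x : E → ℤ) ⬝ᵥ (χ y : E → ℤ) + ω x ⬝ᵥ ω y := by
  obtain ⟨τ, η, hτ, hval, hout⟩ := flows_standard hG h hf
  have hcard : Fintype.card E ≤ Fintype.card κ := Fintype.card_le_of_injective τ hτ
  refine ⟨hcard, ?_⟩
  let Θ : (κ → ℤ) →ₗ[ℤ] (E → ℤ) :=
    { toFun := fun u e => η e * u (τ e)
      map_add' := fun u w => by funext e; simp only [Pi.add_apply]; ring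
      map_smul' := fun c u => by
        funext e; simp only [Pi.smul_apply, smul_eq_mul, RingHom.id_apply]; ring }
  have hcut : ∀ a : M, (Θ ∘ₗ f ∘ₗ LinearMap.inl ℤ _ _) a ∈ G.cuts := by
    intro a
    apply G.mem_cuts_of_dot
    intro z hz
    have h1 := h.orth a ⟨z, hz⟩
    rw [dot_split hτ (hout ⟨z, hz⟩)] at h1
    rw [← h1]
    change ∑ e, (η e * f (a, 0) (τ e)) * z e = _
    apply sum_congr rfl
    intro e _
    rw [hval ⟨z, hz⟩ e]
    ring
  let S : Finset κ := univ.filter fun i => ∀ e, τ e ≠ i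
  have hS : S.card = Fintype.card κ - Fintype.card E := by
    have h1 : S = (univ.image τ)ᶜ := by
      ext i; simp [S]
    rw [h1, card_compl, card_image_of_injective _ hτ, card_univ]
  let ρ : S ≃ Fin (Fintype.card κ - Fintype.card E) := Fintype.equivFinOfCardEq (by
    rw [Fintype.card_coe, hS])
  let R : (κ → ℤ) →ₗ[ℤ] (Fin (Fintype.card κ - Fintype.card E) → ℤ) :=
    { toFun := fun u i => u (ρ.symm i).1
      map_add' := fun _ _ => rfl
      map_smul' := fun _ _ => rfl }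
  refine ⟨(Θ ∘ₗ f ∘ₗ LinearMap.inl ℤ _ _).codRestrict G.cuts hcut,
    R ∘ₗ f ∘ₗ LinearMap.inl ℤ _ _, fun x y => ?_⟩
  change f (x, 0) ⬝ᵥ f (y, 0) = ∑ e, (η e * f (x, 0) (τ e)) * (η e * f (y, 0) (τ e)) +
    ∑ i, f (x, 0) (ρ.symm i).1 * f (y, 0) (ρ.symm i).1
  rw [dotProduct, sum_split hτ, ρ.symm.sum_comp fun i => f (x, 0) i.1 * f (y, 0) i.1,
    ← sum_coe_sort S fun i => f (x, 0) i * f (y, 0) i]
  congr 1
  apply sum_congr rfl
  intro e _
  calc f (x, 0) (τ e) * f (y, 0) (τ e) = 1 * (f (x, 0) (τ e) * f (y, 0) (τ e)) := by ring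
    _ = ((η e : ℤ) * η e) * (f (x, 0) (τ e) * f (y, 0) (τ e)) := by rw [unit_mul_self]
    _ = _ := by ring

end

section

variable {κ V E V' E' : Type} [Fintype κ] [DecidableEq κ] [Fintype V] [Fintype E]
  [DecidableEq V] [DecidableEq E] [Fintype V'] [Fintype E'] [DecidableEq V'] [DecidableEq E']

/-- The first summand is a lattice of cuts: comparison of the numbers of edges. -/
theorem compare {G : Multigraph V E} {G' : Multigraph V' E'}
    (hG' : ∀ e, ∃ x, G'.IsFlow x ∧ x e ≠ 0) {f : (G.cuts × G'.flows) →ₗ[ℤ] (κ → ℤ)}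
    (h : ShEmb f)
    (hf : ∀ x y : G'.flows, f (0, x) ⬝ᵥ f (0, y) = (x : E' → ℤ) ⬝ᵥ (y : E' → ℤ))
    (hg : ∀ x y : G.cuts, f (x, 0) ⬝ᵥ f (y, 0) = (x : E → ℤ) ⬝ᵥ (y : E → ℤ)) :
    Fintype.card E' ≤ Fintype.card E ∧ (Fintype.card E' = Fintype.card E →
      ∃ (σ : E ≃ E') (η : E → ℤˣ), ∀ x : E' → ℤ,
        G'.IsFlow x ↔ G.IsFlow (fun e => η e * x (σ e))) := by
  have hu := used f h.inj h.rk h.orth h.even h.odd
  have h1 : Fintype.card κ ≤ Fintype.card E :=
    card_le (f ∘ₗ LinearMap.inl ℤ _ _) (fun a b => hg a b) hu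
  obtain ⟨τ', η', hτ', hval, hout⟩ := flows_standard hG' h hf
  have h2 : Fintype.card E' ≤ Fintype.card κ := Fintype.card_le_of_injective τ' hτ'
  refine ⟨h2.trans h1, fun heq => ?_⟩
  have h3 : Fintype.card κ = Fintype.card E := by omega
  have hbij : Function.Bijective τ' :=
    (Fintype.bijective_iff_injective_and_card τ').2 ⟨hτ', by omega⟩
  let T' : E' ≃ κ := Equiv.ofBijective τ' hbij
  obtain ⟨τ, η, hst⟩ := standard (f ∘ₗ LinearMap.inl ℤ _ _) (fun a b => hg a b) hu h3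
  have hst' : ∀ (x : G.cuts) (e : E), f (x, 0) (τ e) = η e * (x : E → ℤ) e := hst
  let σ : E ≃ E' := τ.trans T'.symm
  have hσ : ∀ e, τ' (σ e) = τ e := fun e => T'.apply_symm_apply (τ e)
  refine ⟨σ, fun e => η e * η' (σ e), fun x => ⟨fun hx => ?_, fun hx => ?_⟩⟩
  · apply G.isFlow_of_dot
    intro y hy
    have h4 := h.orth ⟨y, hy⟩ ⟨x, hx⟩
    rw [dotProduct, ← τ.sum_comp] at h4
    rw [← h4, dotProduct]
    apply sum_congr rfl
    intro e _
    have h5 := hval ⟨x, hx⟩ (σ e)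
    rw [hσ] at h5
    rw [hst', h5]
    push_cast
    ring
  · -- the corresponding vector is orthogonal to the cuts
    let v : κ → ℤ := fun i => η (τ.symm i) * (((η (τ.symm i) * η' (σ (τ.symm i)) : ℤˣ) : ℤ) *
      x (σ (τ.symm i)))
    have hv : ∀ a, v ⬝ᵥ f (a, 0) = 0 := by
      intro a
      have h4 := G.cuts_dot_flows a.2 hx
      rw [← h4, dotProduct, ← τ.sum_comp, dotProduct]
      apply sum_congr rfl
      intro e _
      change (η (τ.symm (τ e)) * (((η (τ.symm (τ e)) * η' (σ (τ.symm (τ e))) : ℤˣ) : ℤ) *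
        x (σ (τ.symm (τ e))))) * f (a, 0) (τ e) = _
      rw [τ.symm_apply_apply, hst']
      have h6 := unit_mul_self (η e)
      calc (η e : ℤ) * (((η e * η' (σ e) : ℤˣ) : ℤ) * x (σ e)) * (η e * (a : E → ℤ) e) =
          ((η e : ℤ) * η e) * ((a : E → ℤ) e * (((η e * η' (σ e) : ℤˣ) : ℤ) * x (σ e))) := by ring
        _ = _ := by rw [h6, one_mul]
    obtain ⟨b, hb⟩ := h.sat hv
    have hbx : (b : E' → ℤ) = x := by
      funext e'
      have h4 := hval b e'
      rw [← hb] at h4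
      obtain ⟨e, rfl⟩ := σ.surjective e'
      change η (τ.symm (τ' (σ e))) * (((η (τ.symm (τ' (σ e))) * η' (σ (τ.symm (τ' (σ e)))) : ℤˣ) :
        ℤ) * x (σ (τ.symm (τ' (σ e))))) = _ at h4
      rw [hσ, τ.symm_apply_apply] at h4
      have h5 := unit_mul_self (η e)
      have h6 := unit_mul_self (η' (σ e))
      push_cast at h4
      have h7 : ((η' (σ e) : ℤ) * η' (σ e)) * (((η e : ℤ) * η e) * x (σ e)) =
          ((η' (σ e) : ℤ) * η' (σ e)) * (b : E' → ℤ) (σ e) := by linear_combination (η' (σ e) : ℤ) * h4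
      rw [h5, h6, one_mul, one_mul, one_mul] at h7
      exact h7.symm
    rw [← hbx]
    exact b.2

end

end Pool.Agent.H754.Special
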