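import Pool.Agent.H754.Special.Std

/-!
Sharp embeddings with an even summand of odd determinant.
-/

set_option autoImplicit false
set_option linter.unusedSectionVars false

namespace Pool.Agent.H754.Special

open Finset Matrix
open Pool.Agent.H762.TG Pool.Agent.H762.TG.Multigraph

theorem card_le_norm {κ : Type} [Fintype κ] {x : κ → ℤ} (hx : ∀ i, Odd (x i)) :
    (Fintype.card κ : ℤ) ≤ x ⬝ᵥ x := by
  rw [dot_self, ← card_univ, card_eq_sum_ones]
  push_cast
  apply sum_le_sum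
  intro i _
  obtain ⟨m, hm⟩ := hx i
  have : x i ≠ 0 := by omega
  have h1 := Int.one_le_abs this
  rw [← sq_abs]
  nlinarith

theorem norm_pm {κ : Type} [Fintype κ] {e : κ → ℤ} (he : ∀ i, e i = 1 ∨ e i = -1) :
    e ⬝ᵥ e = (Fintype.card κ : ℤ) := by
  rw [dot_self, ← card_univ, card_eq_sum_ones]
  push_cast
  apply sum_congr rfl
  intro i _
  rcases he i with h | h <;> rw [h] <;> rfl

theorem norm_add_two {κ : Type} [Fintype κ] {w g : κ → ℤ} (h : w ⬝ᵥ g = 0) :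
    (w + (2 : ℤ) • g) ⬝ᵥ (w + (2 : ℤ) • g) = w ⬝ᵥ w + 4 * (g ⬝ᵥ g) := by
  rw [add_dotProduct, dotProduct_add, dotProduct_add, dotProduct_smul, smul_dotProduct,
    h, dotProduct_comm g w, h, smul_dotProduct, dotProduct_smul]
  simp only [smul_eq_mul]
  ring

theorem norm_sub_two {κ : Type} [Fintype κ] {w g : κ → ℤ} (h : w ⬝ᵥ g = 0) :
    (w - (2 : ℤ) • g) ⬝ᵥ (w - (2 : ℤ) • g) = w ⬝ᵥ w + 4 * (g ⬝ᵥ g) := by
  have h1 : w - (2 : ℤ) • g = w + (2 : ℤ) • (-g) := by rw [smul_neg]; abel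
  rw [h1, norm_add_two (by rw [dotProduct_neg, h, neg_zero])]
  simp

variable {κ M M' : Type} [Fintype κ] [DecidableEq κ] [AddCommGroup M] [Module.Free ℤ M]
  [Module.Finite ℤ M] [AddCommGroup M'] [Module.Free ℤ M'] [Module.Finite ℤ M']

/-- The data of a sharp embedding of `M ⊕ M'` with `M'` even and nonsingular modulo two. -/
structure ShEmb (f : (M × M') →ₗ[ℤ] (κ → ℤ)) : Prop where
  inj : Function.Injective f
  rk : Module.finrank ℤ M + Module.finrank ℤ M' = Fintype.card κ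
  orth : ∀ x y, f (x, 0) ⬝ᵥ f (0, y) = 0
  even : ∀ y, Even (f (0, y) ⬝ᵥ f (0, y))
  odd : ∀ y, (∀ y', Even (f (0, y) ⬝ᵥ f (0, y'))) → ∃ z, y = (2 : ℤ) • z
  cub : ∀ x : κ → ℤ, (∀ i, Odd (x i)) → ∃ e : κ → ℤ, (∀ i, e i = 1 ∨ e i = -1) ∧
    ∃ a b, x = e + (2 : ℤ) • (f (a, 0) + f (0, b))

theorem ShEmb.split {f : (M × M') →ₗ[ℤ] (κ → ℤ)} (a : M × M') : f a = f (a.1, 0) + f (0, a.2) := by
  rw [← map_add]; simp

/-- an odd multiple of the projection to the second summand -/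
theorem ShEmb.proj {f : (M × M') →ₗ[ℤ] (κ → ℤ)} (h : ShEmb f) (v : κ → ℤ) :
    ∃ m : ℤ, Odd m ∧ ∃ b, ∀ y, f (0, b) ⬝ᵥ f (0, y) = m * (v ⬝ᵥ f (0, y)) := by
  obtain ⟨k, hk, a, ha⟩ := exists_mul f h.inj h.rk v
  have hex : ∃ k : ℕ, 0 < k ∧ ∃ b, ∀ y, f (0, b) ⬝ᵥ f (0, y) = k * (v ⬝ᵥ f (0, y)) := by
    refine ⟨k, hk, a.2, fun y => ?_⟩
    have h1 : ((k : ℤ) • v) ⬝ᵥ f (0, y) = f a ⬝ᵥ f (0, y) := by rw [ha]
    rw [smul_dotProduct, smul_eq_mul, ShEmb.split a, add_dotProduct, h.orth, zero_add] at h1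
    exact h1.symm
  classical
  obtain ⟨hk0, b, hb⟩ := Nat.find_spec hex
  set n := Nat.find hex with hn
  refine ⟨n, ?_, b, hb⟩
  rcases Nat.even_or_odd n with hev | hodd
  · exfalso
    obtain ⟨m, hm⟩ := hev
    obtain ⟨z, hz⟩ := h.odd b fun y' => by
      rw [hb, hm]
      push_cast
      exact Even.mul_right ⟨(m : ℤ), rfl⟩ _
    have h3 : f (0, b) = (2 : ℤ) • f (0, z) := by rw [← map_smul, hz]; simp
    have h4 : 0 < m ∧ ∃ b, ∀ y, f (0, b) ⬝ᵥ f (0, y) = m * (v ⬝ᵥ f (0, y)) := by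
      refine ⟨by omega, z, fun y => ?_⟩
      have h5 := hb y
      rw [h3, smul_dotProduct, smul_eq_mul, hm] at h5
      push_cast at h5
      linarith
    have := Nat.find_min' hex h4
    omega
  · exact_mod_cast hodd

/-- vectors orthogonal to the first summand: a multiple is in the second one -/
theorem ShEmb.mult {f : (M × M') →ₗ[ℤ] (κ → ℤ)} (h : ShEmb f) {v : κ → ℤ}
    (hv : ∀ a, v ⬝ᵥ f (a, 0) = 0) : ∃ k : ℤ, 0 < k ∧ ∃ b, k • v = f (0, b) := by
  obtain ⟨k, hk, a, ha⟩ := exists_mul f h.inj h.rk v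
  refine ⟨k, by exact_mod_cast hk, a.2, ?_⟩
  have h1 : f (a.1, 0) ⬝ᵥ f (a.1, 0) = 0 := by
    have h2 : ((k : ℤ) • v) ⬝ᵥ f (a.1, 0) = 0 := by rw [smul_dotProduct, hv, smul_zero]
    rw [ha, ShEmb.split a, add_dotProduct, dotProduct_comm (f (0, a.2)), h.orth, add_zero] at h2
    exact h2
  have h2 := eq_zero_of_dot h1
  rw [ShEmb.split a, h2, zero_add] at ha
  exact ha

/-- vectors orthogonal to the two summands are orthogonal to each other -/
theorem ShEmb.perp {f : (M × M') →ₗ[ℤ] (κ → ℤ)} (h : ShEmb f) {u v : κ → ℤ}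
    (hu : ∀ b, u ⬝ᵥ f (0, b) = 0) (hv : ∀ a, v ⬝ᵥ f (a, 0) = 0) : u ⬝ᵥ v = 0 := by
  obtain ⟨k, hk, b, hb⟩ := h.mult hv
  have h1 := hu b
  rw [← hb, dotProduct_smul, smul_eq_mul] at h1
  exact (mul_eq_zero.1 h1).resolve_left hk.ne'

/-- there is a vector with entries `±1` orthogonal to the second summand -/
theorem ShEmb.exists_pm {f : (M × M') →ₗ[ℤ] (κ → ℤ)} (h : ShEmb f) :
    ∃ e : κ → ℤ, (∀ i, e i = 1 ∨ e i = -1) ∧ ∀ y, e ⬝ᵥ f (0, y) = 0 := by
  obtain ⟨m, hm, b, hb⟩ := h.proj fun _ => 1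
  obtain ⟨z, hz⟩ := h.odd b fun y' => by
    rw [hb]
    have h1 : Even ((fun _ => (1 : ℤ)) ⬝ᵥ f (0, y')) := by
      have h2 := h.even y'
      have h3 : (fun _ => (1 : ℤ)) ⬝ᵥ f (0, y') = f (0, y') ⬝ᵥ f (0, y') -
          ∑ i, (f (0, y') i - 1) * (f (0, y') i - 1 + 1) := by
        simp only [dotProduct]
        rw [← sum_sub_distrib]
        apply sum_congr rfl
        intro i _
        ring
      rw [h3]
      exact h2.sub (Finset.even_sum _ fun i _ => Int.even_mul_succ_self _)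
    exact h1.mul_left _
  have h3 : f (0, b) = (2 : ℤ) • f (0, z) := by rw [← map_smul, hz]; simp
  set x : κ → ℤ := (fun _ => m) - (2 : ℤ) • f (0, z) with hx
  have hxo : ∀ i, Odd (x i) := by
    intro i
    have : x i = m - 2 * f (0, z) i := rfl
    rw [this]
    exact hm.sub_even ⟨_, by ring⟩
  have hxy : ∀ y, x ⬝ᵥ f (0, y) = 0 := by
    intro y
    have h4 := hb y
    rw [hx, sub_dotProduct, ← h3, h4]
    simp only [dotProduct, one_mul, mul_sum]
    rw [← sum_sub_distrib]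
    exact sum_eq_zero fun i _ => by ring
  obtain ⟨e, he, a, c, hxe⟩ := h.cub x hxo
  set w : κ → ℤ := x - (2 : ℤ) • f (a, 0) with hw
  have hwo : ∀ i, Odd (w i) := by
    intro i
    have : w i = x i - 2 * f (a, 0) i := rfl
    rw [this]
    exact (hxo i).sub_even ⟨_, by ring⟩
  have hwy : ∀ y, w ⬝ᵥ f (0, y) = 0 := by
    intro y
    rw [hw, sub_dotProduct, hxy, smul_dotProduct, h.orth]; simp
  have hew : e = w - (2 : ℤ) • f (0, c) := by
    rw [hw, hxe, smul_add]; abel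
  have h5 := norm_pm he
  have h5' : e ⬝ᵥ e = w ⬝ᵥ w + 4 * (f (0, c) ⬝ᵥ f (0, c)) := by
    rw [hew]
    exact norm_sub_two (hwy c)
  have h6 := card_le_norm hwo
  have h7 : f (0, c) ⬝ᵥ f (0, c) = 0 := by
    have h8 := dot_self_nonneg (f (0, c))
    linarith
  have h9 := eq_zero_of_dot h7
  refine ⟨e, he, fun y => ?_⟩
  rw [hew, h9, smul_zero, sub_zero, hwy]

/-- the second summand is saturated -/
theorem ShEmb.sat {f : (M × M') →ₗ[ℤ] (κ → ℤ)} (h : ShEmb f) {v : κ → ℤ}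
    (hv : ∀ a, v ⬝ᵥ f (a, 0) = 0) : ∃ b, v = f (0, b) := by
  obtain ⟨e₀, he₀, hey⟩ := h.exists_pm
  obtain ⟨e, he, a, c, hxe⟩ := h.cub (e₀ + (2 : ℤ) • v) (by
    intro i
    have : (e₀ + (2 : ℤ) • v) i = e₀ i + 2 * v i := rfl
    rw [this]
    rcases he₀ i with h1 | h1 <;> rw [h1]
    · exact ⟨v i, by ring⟩
    · exact ⟨v i - 1, by ring⟩)
  set u : κ → ℤ := e₀ - (2 : ℤ) • f (a, 0) with hu
  set w : κ → ℤ := v - f (0, c) with hw
  have huo : ∀ i, Odd (u i) := by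
    intro i
    have : u i = e₀ i - 2 * f (a, 0) i := rfl
    rw [this]
    rcases he₀ i with h1 | h1 <;> rw [h1]
    · exact ⟨-f (a, 0) i, by ring⟩
    · exact ⟨-f (a, 0) i - 1, by ring⟩
  have huy : ∀ y, u ⬝ᵥ f (0, y) = 0 := by
    intro y
    rw [hu, sub_dotProduct, hey, smul_dotProduct, h.orth]; simp
  have hwa : ∀ a, w ⬝ᵥ f (a, 0) = 0 := by
    intro a
    rw [hw, sub_dotProduct, hv, dotProduct_comm, h.orth]; simp
  have huw := h.perp huy hwa
  have hew : e = u + (2 : ℤ) • w := by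
    have h1 : e = (e₀ + (2 : ℤ) • v) - (2 : ℤ) • (f (a, 0) + f (0, c)) := by rw [hxe]; abel
    rw [h1, hu, hw, smul_add, smul_sub]; abel
  have h5 := norm_pm he
  have h5' : e ⬝ᵥ e = u ⬝ᵥ u + 4 * (w ⬝ᵥ w) := by
    rw [hew]
    exact norm_add_two huw
  have h6 := card_le_norm huo
  have h7 : w ⬝ᵥ w = 0 := by
    have h8 := dot_self_nonneg w
    linarith
  have h9 := eq_zero_of_dot h7
  exact ⟨c, sub_eq_zero.1 h9⟩

/-- functionals on the second summand are restrictions -/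
theorem ShEmb.ext {f : (M × M') →ₗ[ℤ] (κ → ℤ)} (h : ShEmb f) (g : M' →ₗ[ℤ] ℤ) :
    ∃ z : κ → ℤ, ∀ y, z ⬝ᵥ f (0, y) = g y := by
  let B : Submodule ℤ (κ → ℤ) := LinearMap.range (f ∘ₗ LinearMap.inr ℤ M M')
  have hB : ∀ v, v ∈ B ↔ ∃ b, v = f (0, b) := fun v =>
    ⟨fun ⟨b, hb⟩ => ⟨b, hb.symm⟩, fun ⟨b, hb⟩ => ⟨b, hb.symm⟩⟩
  have htf : Module.IsTorsionFree ℤ ((κ → ℤ) ⧸ B) := by
    refine Module.IsTorsionFree.of_smul_eq_zero ?_
    intro k x hx
    obtain ⟨v, rfl⟩ := Submodule.Quotient.mk_surjective B x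
    by_cases hk : k = 0
    · exact Or.inl hk
    right
    rw [← Submodule.Quotient.mk_smul, Submodule.Quotient.mk_eq_zero, hB] at hx
    rw [Submodule.Quotient.mk_eq_zero, hB]
    obtain ⟨b, hb⟩ := hx
    apply h.sat
    intro a
    have h1 : (k • v) ⬝ᵥ f (a, 0) = 0 := by rw [hb, dotProduct_comm, h.orth]
    rw [smul_dotProduct, smul_eq_mul] at h1
    exact (mul_eq_zero.1 h1).resolve_left hk
  obtain ⟨s, hs⟩ := Module.projective_lifting_property B.mkQ (LinearMap.id) B.mkQ_surjective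
  have hp : ∀ v, v - s (B.mkQ v) ∈ B := by
    intro v
    rw [← Submodule.Quotient.mk_eq_zero]
    have h1 := congrArg (fun l => l (B.mkQ v)) hs
    simp only [LinearMap.comp_apply, LinearMap.id_apply] at h1
    change B.mkQ (v - s (B.mkQ v)) = 0
    rw [map_sub, h1, sub_self]
  have hinj : Function.Injective (fun y => f (0, y)) := by
    intro y y' hyy
    have := h.inj hyy
    simpa using this
  choose c hc using fun v => (hB _).1 (hp v)
  have hcu : ∀ v y, f (0, y) = v - s (B.mkQ v) → c v = y := by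
    intro v y hvy
    apply hinj
    change f (0, c v) = f (0, y)
    rw [← hc, hvy]
  let cl : (κ → ℤ) →ₗ[ℤ] M' :=
    { toFun := c
      map_add' := fun v w => by
        apply hcu
        have : f (0, c v + c w) = f (0, c v) + f (0, c w) := by rw [← map_add]; simp
        rw [this, ← hc, ← hc, map_add, map_add]; abel
      map_smul' := fun k v => by
        apply hcu
        have : f (0, k • c v) = k • f (0, c v) := by rw [← map_smul]; simp
        simp only [RingHom.id_apply]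
        rw [this, ← hc, map_smul, map_smul, smul_sub] }
  have hcb : ∀ y, cl (f (0, y)) = y := by
    intro y
    apply hcu
    have h1 : B.mkQ (f (0, y)) = 0 := (Submodule.Quotient.mk_eq_zero B).2 ((hB _).2 ⟨y, rfl⟩)
    rw [h1, map_zero, sub_zero]
  refine ⟨fun i => g (cl (Pi.single i 1)), fun y => ?_⟩
  have h1 : g y = g (cl (f (0, y))) := by rw [hcb]
  have h2 : f (0, y) = ∑ i, f (0, y) i • (Pi.single i (1 : ℤ) : κ → ℤ) := by
    funext j
    rw [Finset.sum_apply, sum_eq_single_of_mem j (mem_univ j)]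
    · simp
    · intro i _ hi
      simp [hi.symm]
  rw [h1]
  conv_rhs => rw [h2]
  rw [map_sum, map_sum, dotProduct]
  apply sum_congr rfl
  intro i _
  rw [map_smul, map_smul, smul_eq_mul, mul_comm]

end Pool.Agent.H754.Special
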