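import Pool.Agent.H762.TG.Torelli

/-!
Embeddings of cut lattices which use all coordinates.
-/

set_option autoImplicit false
set_option linter.unusedSectionVars false

namespace Pool.Agent.H754.Special

open Finset Matrix
open Pool.Agent.H762.TG Pool.Agent.H762.TG.Multigraph

section used

variable {κ M M' : Type} [Fintype κ] [AddCommGroup M] [Module.Free ℤ M] [Module.Finite ℤ M]
  [AddCommGroup M'] [Module.Free ℤ M'] [Module.Finite ℤ M']

/-- full rank implies finite index -/
theorem exists_mul (f : (M × M') →ₗ[ℤ] (κ → ℤ)) (hf : Function.Injective f)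
    (hr : Module.finrank ℤ M + Module.finrank ℤ M' = Fintype.card κ) (v : κ → ℤ) :
    ∃ k : ℕ, 0 < k ∧ ∃ a, (k : ℤ) • v = f a := by
  have h1 : Module.finrank ℤ (LinearMap.range f) = Module.finrank ℤ (κ → ℤ) := by
    rw [LinearMap.finrank_range_of_inj hf, Module.finrank_prod, hr,
      Module.finrank_fintype_fun_eq_card]
  have h2 : Finite ((κ → ℤ) ⧸ LinearMap.range f) := Submodule.finiteQuotientOfFreeOfRankEq _ h1
  refine ⟨Nat.card ((κ → ℤ) ⧸ LinearMap.range f), Nat.card_pos, ?_⟩
  have h3 : Nat.card ((κ → ℤ) ⧸ LinearMap.range f) •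
      (Submodule.Quotient.mk v : (κ → ℤ) ⧸ LinearMap.range f) = 0 := card_nsmul_eq_zero'
  rw [← Submodule.Quotient.mk_smul, Submodule.Quotient.mk_eq_zero] at h3
  obtain ⟨a, ha⟩ := h3
  refine ⟨a, ?_⟩
  rw [ha]
  simp

/-- If the second summand is even and of odd determinant then the first one uses all
coordinates. -/
theorem used [DecidableEq κ] (f : (M × M') →ₗ[ℤ] (κ → ℤ)) (hf : Function.Injective f)
    (hr : Module.finrank ℤ M + Module.finrank ℤ M' = Fintype.card κ)
    (ho : ∀ x y, f (x, 0) ⬝ᵥ f (0, y) = 0) (he : ∀ y, Even (f (0, y) ⬝ᵥ f (0, y)))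
    (hd : ∀ y, (∀ y', Even (f (0, y) ⬝ᵥ f (0, y'))) → ∃ z, y = (2 : ℤ) • z) (i : κ) :
    ∃ x, f (x, 0) i ≠ 0 := by
  by_contra hcon
  push Not at hcon
  have hsplit : ∀ a : M × M', f a = f (a.1, 0) + f (0, a.2) := by
    intro a
    rw [← map_add]
    simp
  -- multiples of the basis vector in the second summand
  have hex : ∃ k : ℕ, 0 < k ∧ ∃ y, Pi.single i (k : ℤ) = f (0, y) := by
    obtain ⟨k, hk, a, ha⟩ := exists_mul f hf hr (Pi.single i 1)
    refine ⟨k, hk, a.2, ?_⟩
    have h1 : f (a.1, 0) ⬝ᵥ f (a.1, 0) = 0 := by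
      have h2 : f (a.1, 0) ⬝ᵥ ((k : ℤ) • Pi.single i 1) = 0 := by
        rw [dotProduct_smul, dotProduct_single, hcon, zero_mul, smul_zero]
      rw [ha, hsplit a, dotProduct_add, ho, add_zero] at h2
      exact h2
    have h2 := eq_zero_of_dot h1
    rw [hsplit a, h2, zero_add] at ha
    rw [← ha]
    funext j
    rw [Pi.smul_apply, Pi.single_apply, Pi.single_apply]
    split_ifs <;> simp
  classical
  obtain ⟨hk, y, hy⟩ := Nat.find_spec hex
  set k := Nat.find hex with hkd
  rcases Nat.even_or_odd k with hev | hodd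
  · obtain ⟨m, hm⟩ := hev
    have h1 : ∀ y', Even (f (0, y) ⬝ᵥ f (0, y')) := by
      intro y'
      rw [← hy, single_dotProduct]
      refine Even.mul_right ?_ _
      exact ⟨m, by rw [hm]; push_cast; ring⟩
    obtain ⟨z, hz⟩ := hd y h1
    have h2 : Pi.single i (m : ℤ) = f (0, z) := by
      have h3 : f (0, y) = (2 : ℤ) • f (0, z) := by
        rw [← map_smul, hz]
        simp
      rw [h3] at hy
      funext j
      have h4 := congrFun hy j
      rw [Pi.smul_apply, smul_eq_mul] at h4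
      rw [Pi.single_apply] at h4 ⊢
      split_ifs at h4 ⊢ with hj
      · rw [hm] at h4
        push_cast at h4
        omega
      · omega
    have h3 := Nat.find_min' hex (⟨by omega, z, h2⟩ : 0 < m ∧ ∃ y, Pi.single i (m : ℤ) = f (0, y))
    omega
  · have h1 := he y
    rw [← hy, single_dotProduct, Pi.single_eq_same] at h1
    have h2 : Odd ((k : ℤ) * k) := by
      have : Odd (k : ℤ) := by exact_mod_cast hodd
      exact this.mul this
    exact (Int.not_even_iff_odd.2 h2) h1

end used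

section count

variable {V E κ : Type} [Fintype V] [Fintype E] [Fintype κ] [DecidableEq V] [DecidableEq E]
  (G : Multigraph V E)

/-- the cut of a vertex -/
def star (v : V) : G.cuts := ⟨G.cut (Pi.single v 1), G.mem_cuts.2 ⟨_, rfl⟩⟩

theorem star_apply (v : V) (e : E) : (star G v : E → ℤ) e =
    (if G.tgt e = v then 1 else 0) - if G.src e = v then 1 else 0 := by
  change G.cut (Pi.single v 1) e = _
  unfold cut
  rw [Pi.single_apply, Pi.single_apply]

theorem cut_eq_sum (y : V → ℤ) : (⟨G.cut y, G.mem_cuts.2 ⟨_, rfl⟩⟩ : G.cuts) =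
    ∑ v, y v • star G v := by
  apply Subtype.ext
  rw [AddSubmonoidClass.coe_finsetSum]
  funext e
  rw [Finset.sum_apply]
  change y (G.tgt e) - y (G.src e) = ∑ v, y v * (star G v : E → ℤ) e
  simp only [star_apply, mul_sub, sum_sub_distrib, mul_ite, mul_one, mul_zero, sum_ite_eq,
    mem_univ, if_true]

theorem sum_star : ∑ v, star G v = 0 := by
  have h1 := cut_eq_sum G (fun _ => 1)
  simp only [one_smul] at h1
  rw [← h1]
  apply Subtype.ext
  funext e
  change (1 : ℤ) - 1 = 0
  norm_num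

/-- the total norm of the vertex cuts -/
theorem sum_norm : ∑ v, (star G v : E → ℤ) ⬝ᵥ (star G v : E → ℤ) =
    2 * ((univ.filter fun e => G.src e ≠ G.tgt e).card : ℤ) := by
  simp only [dotProduct]
  rw [sum_comm, card_filter]
  push_cast
  rw [mul_sum]
  apply sum_congr rfl
  intro e _
  by_cases h : G.src e = G.tgt e
  · rw [if_neg (by simpa using h), mul_zero]
    apply sum_eq_zero
    intro v _
    rw [star_apply, h]
    simp
  · rw [if_pos h]
    have h1 : ∀ v, (star G v : E → ℤ) e * (star G v : E → ℤ) e =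
        (if G.tgt e = v then 1 else 0) + if G.src e = v then 1 else 0 := by
      intro v
      rw [star_apply]
      by_cases h2 : G.tgt e = v
      · have h3 : G.src e ≠ v := fun h3 => h (h3.trans h2.symm)
        rw [if_pos h2, if_neg h3]; norm_num
      · rw [if_neg h2]
        split_ifs <;> norm_num
    rw [sum_congr rfl fun v _ => h1 v, sum_add_distrib, sum_ite_eq, sum_ite_eq, if_pos (mem_univ _),
      if_pos (mem_univ _)]
    norm_num

variable {G} (φ : G.cuts →ₗ[ℤ] (κ → ℤ))

theorem col_sum (i : κ) : ∑ v, φ (star G v) i = 0 := by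
  have h1 : φ (∑ v, star G v) = 0 := by rw [sum_star, map_zero]
  rw [map_sum] at h1
  have h2 := congrFun h1 i
  rw [Finset.sum_apply] at h2
  exact h2

theorem phi_cut (y : V → ℤ) (i : κ) : φ ⟨G.cut y, G.mem_cuts.2 ⟨_, rfl⟩⟩ i =
    ∑ v, y v * φ (star G v) i := by
  rw [cut_eq_sum, map_sum, Finset.sum_apply]
  apply sum_congr rfl
  intro v _
  rw [map_smul]
  rfl

theorem col_norm (hu : ∀ i, ∃ x, φ x i ≠ 0) (i : κ) : 2 ≤ ∑ v, φ (star G v) i ^ 2 := by
  have h1 : Even (∑ v, φ (star G v) i ^ 2) := by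
    have h2 : ∑ v, φ (star G v) i ^ 2 = ∑ v, (φ (star G v) i ^ 2 - φ (star G v) i) := by
      rw [sum_sub_distrib, col_sum, sub_zero]
    rw [h2]
    apply Finset.even_sum
    intro v _
    have : φ (star G v) i ^ 2 - φ (star G v) i = (φ (star G v) i - 1) * (φ (star G v) i - 1 + 1) := by
      ring
    rw [this]
    exact Int.even_mul_succ_self _
  have h2 : 0 < ∑ v, φ (star G v) i ^ 2 := by
    apply (sum_nonneg fun v _ => sq_nonneg _).lt_of_ne
    intro h0
    obtain ⟨x, hx⟩ := hu i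
    obtain ⟨y, hy⟩ := G.mem_cuts.1 x.2
    apply hx
    have h3 : x = ⟨G.cut y, G.mem_cuts.2 ⟨_, rfl⟩⟩ := Subtype.ext hy
    rw [h3, phi_cut]
    apply sum_eq_zero
    intro v _
    have h4 := (sum_eq_zero_iff_of_nonneg fun v _ => sq_nonneg _).1 h0.symm v (mem_univ v)
    rw [pow_eq_zero_iff two_ne_zero] at h4
    rw [h4, mul_zero]
  obtain ⟨m, hm⟩ := h1
  omega

theorem total (hφ : ∀ a b : G.cuts, φ a ⬝ᵥ φ b = (a : E → ℤ) ⬝ᵥ (b : E → ℤ)) :
    ∑ i, ∑ v, φ (star G v) i ^ 2 = 2 * ((univ.filter fun e => G.src e ≠ G.tgt e).card : ℤ) := by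
  rw [sum_comm, ← sum_norm]
  apply sum_congr rfl
  intro v _
  rw [← hφ, dot_self]

theorem card_le (hφ : ∀ a b : G.cuts, φ a ⬝ᵥ φ b = (a : E → ℤ) ⬝ᵥ (b : E → ℤ))
    (hu : ∀ i, ∃ x, φ x i ≠ 0) : Fintype.card κ ≤ Fintype.card E := by
  have h1 := total φ hφ
  have h2 : ∑ _i : κ, (2 : ℤ) ≤ ∑ i, ∑ v, φ (star G v) i ^ 2 :=
    sum_le_sum fun i _ => col_norm φ hu i
  rw [sum_const, card_univ, h1] at h2
  have h3 : (univ.filter fun e => G.src e ≠ G.tgt e).card ≤ Fintype.card E := card_le_univ _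
  simp only [nsmul_eq_mul] at h2
  have h4 : (Fintype.card κ : ℤ) ≤ Fintype.card E := by
    have : ((univ.filter fun e => G.src e ≠ G.tgt e).card : ℤ) ≤ Fintype.card E := by
      exact_mod_cast h3
    linarith
  exact_mod_cast h4

end count

end Pool.Agent.H754.Special
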